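import Mathlib

namespace Pool.Agent.H.MP_fe3f7a_an

open Filter Topology Set Polynomial

noncomputable def mono (g : ℝ × ℕ) (t : ℕ) : ℝ := Real.exp g.1 ^ t * (t : ℝ) ^ g.2

lemma mono_pos (g : ℝ × ℕ) {t : ℕ} (ht : 0 < t) : 0 < mono g t := by
  unfold mono; positivity

lemma dom {g' g : ℝ × ℕ} (h : toLex g' < toLex g) :
    Tendsto (fun t => mono g' t / mono g t) atTop (𝓝 0) := by
  rcases Prod.Lex.toLex_lt_toLex.1 h with h | ⟨h1, h2⟩
  · have := tendsto_pow_const_mul_const_pow_of_abs_lt_one g'.2 (r := Real.exp (g'.1 - g.1))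
      (by rw [abs_of_pos (Real.exp_pos _), Real.exp_lt_one_iff]; linarith)
    refine squeeze_zero' ?_ ?_ this
    · filter_upwards [eventually_gt_atTop 0] with t ht
      exact (div_pos (mono_pos _ ht) (mono_pos _ ht)).le
    · filter_upwards [eventually_gt_atTop 0] with t ht
      have : (1 : ℝ) ≤ (t : ℝ) ^ g.2 := one_le_pow₀ (by exact_mod_cast ht)
      rw [div_le_iff₀ (mono_pos _ ht), Real.exp_sub, div_pow]
      unfold mono
      calc _ = (t : ℝ) ^ g'.2 * (Real.exp g'.1 ^ t / Real.exp g.1 ^ t) * (Real.exp g.1 ^ t * 1) := by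
            field_simp
        _ ≤ _ := by gcongr
  · obtain ⟨d, hd⟩ := Nat.exists_eq_add_of_lt h2
    have := (tendsto_pow_neg_atTop (𝕜 := ℝ) (n := d + 1) (by omega)).comp
      tendsto_natCast_atTop_atTop
    refine this.congr' ?_
    filter_upwards [eventually_gt_atTop 0] with t ht
    have : (0 : ℝ) < t := by exact_mod_cast ht
    simp only [Function.comp, mono, zpow_neg, zpow_natCast]
    rw [h1, hd]
    field_simp
    ring

abbrev RR := AddMonoidAlgebra ℂ (ℝ × ℕ)

noncomputable def ev (t : ℕ) : RR →ₐ[ℂ] ℂ :=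
  AddMonoidAlgebra.lift ℂ ℂ (ℝ × ℕ)
    { toFun g := (mono g.toAdd t : ℂ)
      map_one' := by simp [mono]
      map_mul' a b := by
        simp only [mono, toAdd_mul, Prod.fst_add, Prod.snd_add, Real.exp_add]
        push_cast
        ring }

lemma ev_single (t : ℕ) (g : ℝ × ℕ) (c : ℂ) :
    ev t (AddMonoidAlgebra.single g c) = c * mono g t := AddMonoidAlgebra.lift_single _ _ _

lemma ev_lim (q : RR) (g : ℝ × ℕ) (h : ∀ g' ∈ q.coeff.support, toLex g' ≤ toLex g) :
    Tendsto (fun t => ev t q / mono g t) atTop (𝓝 (q.coeff g)) := by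
  classical
  have : Tendsto (fun t => ∑ a ∈ q.coeff.support, q.coeff a * ((mono a t / mono g t : ℝ) : ℂ))
      atTop (𝓝 (∑ a ∈ q.coeff.support, if a = g then q.coeff a else 0)) := by
    refine tendsto_finsetSum _ fun a ha => ?_
    split_ifs with c
    · subst c
      refine tendsto_const_nhds.congr' ?_
      filter_upwards [eventually_gt_atTop 0] with t ht
      rw [div_self (mono_pos _ ht).ne']; simp
    · simpa using ((Complex.continuous_ofReal.tendsto 0).comp
        (dom (lt_of_le_of_ne (h a ha) (toLex.injective.ne c)))).const_mul (q.coeff a)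
  rw [Finset.sum_ite_eq'] at this
  convert this using 2 with t
  · rw [ev, AddMonoidAlgebra.lift_apply, Finsupp.sum, Finset.sum_div]
    refine Finset.sum_congr rfl fun a _ => ?_
    push_cast
    rw [mul_div_assoc']
    rfl
  · split_ifs with c
    · rfl
    · exact Finsupp.notMem_support_iff.1 c

def Thin (u : ℕ → ℂ) : Prop := ∃ e₀ : ℕ, ∀ e ≥ e₀, ∀ M : ℝ, ∀ᶠ L : ℕ in atTop, ∀ᶠ t in atTop,
  M ≤ ‖u t - (L + L ^ e * Complex.I)‖

lemma Thin.add {u b : ℕ → ℂ} (h : Thin u) {B : ℝ} (hb : ∀ t, ‖b t‖ ≤ B) :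
    Thin fun t => u t + b t := by
  obtain ⟨e₀, h⟩ := h
  refine ⟨e₀, fun e he M => ?_⟩
  filter_upwards [h e he (M + B)] with L hL
  filter_upwards [hL] with t ht
  have := norm_le_add_norm_add (u t - (L + L ^ e * Complex.I)) (b t)
  have := hb t
  rw [add_sub_right_comm]
  linarith

lemma thin_of_tendsto {u : ℕ → ℂ} (h : Tendsto (fun t => ‖u t‖) atTop atTop) : Thin u := by
  refine ⟨0, fun e _ M => Eventually.of_forall fun L => ?_⟩
  filter_upwards [h.eventually_ge_atTop (M + ‖(L + L ^ e * Complex.I : ℂ)‖)] with t ht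
  have := norm_sub_norm_le (u t) (L + L ^ e * Complex.I)
  linarith

lemma nozero {e₀ e : ℕ} (he : e₀ ≤ e) (h1 : 1 ≤ e) (c : Fin e₀ × Fin e₀ → ℂ) (hc : c ≠ 0) (M : ℝ) :
    ∀ᶠ L : ℕ in atTop, ∀ ξ : ℂ, ‖ξ - (L + L ^ e * Complex.I)‖ ≤ M →
      ∑ p, c p * (ξ.re : ℂ) ^ (p.1 : ℕ) * (ξ.im : ℂ) ^ (p.2 : ℕ) ≠ 0 := by
  classical
  by_contra h
  obtain ⟨φ, hφ, h⟩ := extraction_of_frequently_atTop (not_eventually.1 h)
  push Not at h
  choose ξ h1 h2 using h
  obtain ⟨p₀, p1, p2⟩ := (Finset.univ.filter fun p => c p ≠ 0).exists_max_image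
    (fun p => (p.1 : ℕ) + e * p.2) (by
      obtain ⟨p, hp⟩ := Function.ne_iff.1 hc
      exact ⟨p, by simpa using hp⟩)
  have tL : Tendsto (fun k => (φ k : ℝ)) atTop atTop :=
    tendsto_natCast_atTop_atTop.comp hφ.tendsto_atTop
  have key : ∀ (x y : ℕ → ℝ), Tendsto y atTop atTop → (∀ k, |x k - y k| ≤ M) →
      Tendsto (fun k => ((x k / y k : ℝ) : ℂ)) atTop (𝓝 1) := fun x y hy hx => by
    have : Tendsto (fun k => (x k - y k) / y k) atTop (𝓝 0) :=
      tendsto_bdd_div_atTop_nhds_zero (Eventually.of_forall fun k => (abs_le.1 (hx k)).1)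
        (Eventually.of_forall fun k => (abs_le.1 (hx k)).2) hy
    have := (Complex.continuous_ofReal.tendsto _).comp ((this.add_const 1).congr' (by
      filter_upwards [hy.eventually_gt_atTop 0] with k hk
      show _ = x k / y k
      field_simp
      ring))
    simpa [Function.comp_def] using this
  have tx := key (fun k => (ξ k).re) _ tL fun k => by
    simpa [← Complex.ofReal_natCast, ← Complex.ofReal_pow] using
      (Complex.abs_re_le_norm _).trans (h1 k)
  have ty := key (fun k => (ξ k).im) (fun k => (φ k : ℝ) ^ e)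
    ((tendsto_pow_atTop (by omega)).comp tL) fun k => by
    simpa [← Complex.ofReal_natCast, ← Complex.ofReal_pow] using
      (Complex.abs_im_le_norm _).trans (h1 k)
  have t : Tendsto (fun k => ∑ p, c p * (((ξ k).re / φ k : ℝ) : ℂ) ^ (p.1 : ℕ) *
      (((ξ k).im / φ k ^ e : ℝ) : ℂ) ^ (p.2 : ℕ) *
      ((mono (0, p.1 + e * p.2) (φ k) / mono (0, p₀.1 + e * p₀.2) (φ k) : ℝ) : ℂ)) atTop
      (𝓝 (∑ p, if p = p₀ then c p else 0)) := by
    refine tendsto_finsetSum _ fun p _ => ?_
    have a := ((tx.pow p.1).const_mul (c p)).mul (ty.pow p.2)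
    split_ifs with d
    · subst d
      simp only [one_pow, mul_one] at a
      refine a.congr' ?_
      filter_upwards [hφ.tendsto_atTop.eventually_gt_atTop 0] with k hk
      rw [div_self (mono_pos _ hk).ne']; simp
    · by_cases d2 : c p = 0
      · simp [d2]
      · have lt : (p.1 : ℕ) + e * p.2 < p₀.1 + e * p₀.2 := by
          refine lt_of_le_of_ne (p2 p (by simpa using d2)) fun e' => d ?_
          have a1 := p.1.2
          have a2 := p₀.1.2
          have b := congrArg (· % e) e'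
          simp only [Nat.add_mul_mod_self_left] at b
          rw [Nat.mod_eq_of_lt (by omega), Nat.mod_eq_of_lt (by omega)] at b
          rw [b] at e'
          exact Prod.ext (Fin.ext b)
            (Fin.ext (Nat.eq_of_mul_eq_mul_left (by omega) (Nat.add_left_cancel e')))
        simpa using a.mul ((Complex.continuous_ofReal.tendsto 0).comp
          ((dom (g' := (0, p.1 + e * p.2)) (g := (0, p₀.1 + e * p₀.2))
            (Prod.Lex.toLex_lt_toLex.2 (Or.inr ⟨rfl, lt⟩))).comp hφ.tendsto_atTop))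
  rw [Finset.sum_ite_eq', if_pos (Finset.mem_univ _)] at t
  refine (Finset.mem_filter.1 p1).2 (tendsto_nhds_unique t (tendsto_const_nhds.congr' ?_))
  filter_upwards [hφ.tendsto_atTop.eventually_gt_atTop 0] with k hk
  have hk' : (φ k : ℂ) ≠ 0 := by exact_mod_cast hk.ne'
  rw [← zero_div ((φ k : ℂ) ^ (p₀.1 + e * p₀.2 : ℕ)), ← h2 k, Finset.sum_div]
  refine Finset.sum_congr rfl fun p _ => ?_
  simp only [mono, Real.exp_zero, one_pow, one_mul]
  push_cast
  rw [div_pow, div_pow, pow_add _ (p.1 : ℕ), pow_mul _ e (p.2 : ℕ)]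
  field_simp

theorem thin_of_rel {ι : Type*} (s : Finset ι) (c : ι → ℂ) (g : ι → ℝ × ℕ) (m : ι → ℤ) (z : ℂ)
    (hz : ‖z‖ = 1) : Thin fun t => ∑ i ∈ s, c i * mono (g i) t * (z ^ t) ^ m i := by
  classical
  set u : ℕ → ℂ := fun t => ∑ i ∈ s, c i * mono (g i) t * (z ^ t) ^ m i
  set D := s.sup fun i => (m i).natAbs
  have hD : ∀ i ∈ s, (m i).natAbs ≤ D := fun i hi => Finset.le_sup (f := fun i => (m i).natAbs) hi
  set F : RR[X] := ∑ i ∈ s, monomial (D + m i).toNat (AddMonoidAlgebra.single (g i) (c i))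
  set G : RR[X] := ∑ i ∈ s, monomial (D - m i).toNat
    (AddMonoidAlgebra.single (g i) (starRingEnd ℂ (c i)))
  have dF : F.natDegree ≤ 2 * D := natDegree_sum_le_of_forall_le _ _ fun i hi =>
    (natDegree_monomial_le _).trans (by have := hD i hi; omega)
  have dG : G.natDegree ≤ 2 * D := natDegree_sum_le_of_forall_le _ _ fun i hi =>
    (natDegree_monomial_le _).trans (by have := hD i hi; omega)
  have z0 : ∀ t : ℕ, z ^ t ≠ 0 := fun t => pow_ne_zero _ (by rintro rfl; simp at hz)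
  let E : ℕ → RR[X] →+* ℂ := fun t => eval₂RingHom (ev t : RR →+* ℂ) (z ^ t)
  have Em : ∀ t n a, E t (monomial n a) = ev t a * (z ^ t) ^ n := fun t n a => eval₂_monomial _ _
  have EF : ∀ t, E t F = (z ^ t) ^ D * u t := fun t => by
    rw [map_sum, Finset.mul_sum]
    refine Finset.sum_congr rfl fun i hi => ?_
    rw [Em, ev_single, ← zpow_natCast (z ^ t), Int.toNat_of_nonneg (by have := hD i hi; omega),
      zpow_add₀ (z0 t), zpow_natCast]
    ring
  have EG : ∀ t, E t G = (z ^ t) ^ D * starRingEnd ℂ (u t) := fun t => by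
    rw [map_sum, map_sum, Finset.mul_sum]
    refine Finset.sum_congr rfl fun i hi => ?_
    rw [Em, ev_single, ← zpow_natCast (z ^ t), Int.toNat_of_nonneg (by have := hD i hi; omega),
      zpow_sub₀ (z0 t), zpow_natCast, map_mul, map_mul, map_zpow₀, Complex.conj_ofReal,
      ← Complex.inv_eq_conj (z := z ^ t) (by rw [norm_pow, hz, one_pow]), inv_zpow]
    ring
  set e := 4 * D + 2
  let v : Fin e × Fin e → RR[X] := fun p =>
    (F + G) ^ (p.1 : ℕ) * (F - G) ^ (p.2 : ℕ) * X ^ (D * (2 * e - p.1 - p.2))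
  have dv : ∀ p, (v p).natDegree < 4 * e * D + 1 := fun p => by
    have a1 := natDegree_pow_le_of_le p.1 (natDegree_add_le_of_degree_le dF dG)
    have a2 := natDegree_pow_le_of_le p.2 ((natDegree_sub_le F G).trans (max_le dF dG))
    have a3 := natDegree_mul_le_of_le (natDegree_mul_le_of_le a1 a2)
      (natDegree_X_pow_le (R := RR) (D * (2 * e - p.1 - p.2)))
    have b1 := p.1.2
    have b2 := p.2.2
    obtain ⟨r, hr⟩ : ∃ r, 2 * e = p.1 + p.2 + r := ⟨2 * e - p.1 - p.2, by omega⟩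
    refine Nat.lt_succ_of_le (a3.trans ?_)
    rw [show 2 * e - p.1 - p.2 = r by omega, show 4 * e * D = 2 * (2 * e) * D by ring, hr]
    nlinarith
  have Ev : ∀ t p, E t (v p) = (z ^ t) ^ (D * (2 * e)) * ((2 ^ (p.1 : ℕ) * (2 * Complex.I) ^ (p.2 : ℕ))
      * ((u t).re : ℂ) ^ (p.1 : ℕ) * ((u t).im : ℂ) ^ (p.2 : ℕ)) := fun t p => by
    have b1 := p.1.2
    have b2 := p.2.2
    obtain ⟨r, hr⟩ : ∃ r, 2 * e = p.1 + p.2 + r := ⟨2 * e - p.1 - p.2, by omega⟩
    have EX : E t X = z ^ t := eval₂_X _ _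
    simp only [v, map_mul, map_pow, map_add, map_sub, EF, EG, EX]
    rw [← mul_add, ← mul_sub, Complex.add_conj, Complex.sub_conj,
      show 2 * e - p.1 - p.2 = r by omega, hr]
    push_cast
    ring
  have nli : ¬ LinearIndependent RR fun p (j : Fin (4 * e * D + 1)) => (v p).coeff j := fun h => by
    have := h.fintype_card_le_finrank
    rw [Module.finrank_fin_fun, Fintype.card_prod, Fintype.card_fin] at this
    simp only [e] at this
    nlinarith
  obtain ⟨q, q1, p₁, q2⟩ := Fintype.not_linearIndependent_iff.1 nli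
  have q3 : ∑ p, C (q p) * v p = 0 := by
    ext1 j
    rw [finsetSum_coeff, coeff_zero]
    simp only [coeff_C_mul]
    by_cases hj : j < 4 * e * D + 1
    · simpa using congrFun q1 ⟨j, hj⟩
    · exact Finset.sum_eq_zero fun p _ => by
        rw [coeff_eq_zero_of_natDegree_lt (by have := dv p; omega), mul_zero]
  obtain ⟨g₀, g1, g2⟩ := (Finset.univ.biUnion fun p => (q p).coeff.support).exists_max_image toLex
    (by
      obtain ⟨a, ha⟩ := Finsupp.support_nonempty_iff.2
        (fun h : (q p₁).coeff = 0 => q2 (AddMonoidAlgebra.coeff_injective h))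
      exact ⟨a, Finset.mem_biUnion.2 ⟨p₁, Finset.mem_univ _, ha⟩⟩)
  set k : Fin e × Fin e → ℂ := fun p => 2 ^ (p.1 : ℕ) * (2 * Complex.I) ^ (p.2 : ℕ)
  have hc : (fun p => (q p).coeff g₀ * k p) ≠ 0 := by
    obtain ⟨p, -, hp⟩ := Finset.mem_biUnion.1 g1
    exact Function.ne_iff.2 ⟨p, mul_ne_zero (Finsupp.mem_support_iff.1 hp) (by simp [k])⟩
  refine ⟨e, fun e' he M => ?_⟩
  filter_upwards [nozero he (by omega) _ hc M] with L hL
  by_contra h
  obtain ⟨ξ, x1, φ, hφ, x2⟩ := (isCompact_closedBall (L + L ^ e' * Complex.I : ℂ) M).tendsto_subseq'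
    (x := u) ((not_eventually.1 h).mono fun t ht => mem_closedBall_iff_norm.2 (not_le.1 ht).le)
  refine hL ξ (mem_closedBall_iff_norm.1 x1) (tendsto_nhds_unique (l := atTop)
    (f := fun j => ∑ p, ev (φ j) (q p) / mono g₀ (φ j) * k p * ((u (φ j)).re : ℂ) ^ (p.1 : ℕ) *
      ((u (φ j)).im : ℂ) ^ (p.2 : ℕ)) (tendsto_finsetSum _ fun p _ => ?_)
    (tendsto_const_nhds.congr fun j => ?_))
  · refine ((((ev_lim (q p) g₀ fun a ha => g2 a (Finset.mem_biUnion.2
      ⟨p, Finset.mem_univ _, ha⟩)).comp hφ.tendsto_atTop).mul_const _).mul ?_).mul ?_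
    · exact (((Complex.continuous_ofReal.comp Complex.continuous_re).tendsto ξ).comp x2).pow _
    · exact (((Complex.continuous_ofReal.comp Complex.continuous_im).tendsto ξ).comp x2).pow _
  · have := congrArg (E (φ j)) q3
    have EC : ∀ a, E (φ j) (C a) = ev (φ j) a := fun a => eval₂_C _ _
    simp only [map_sum, map_mul, Ev, EC, map_zero, mul_left_comm _ ((z ^ φ j) ^ _)] at this
    rw [← Finset.mul_sum, mul_eq_zero, or_iff_right (pow_ne_zero _ (z0 _))] at this
    rw [← zero_div (mono g₀ (φ j) : ℂ), ← this, Finset.sum_div]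
    exact Finset.sum_congr rfl fun p _ => by simp only [k]; ring

end Pool.Agent.H.MP_fe3f7a_an
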