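import Pool.Agent.H.MP_fe3f7a_an.A

namespace Pool.Agent.H.MP_fe3f7a_an

open Filter Topology Set Polynomial

theorem core (A : Finset ℂ) (P : ℂ → ℂ[X]) (z : ℂ) (hz : ‖z‖ = 1) (R : ℝ)
    (h0 : ∀ μ ∈ A, 1 ≤ ‖μ‖) (h1 : ∀ μ ∈ A, ‖μ‖ ≤ R → ∃ m : ℤ, μ = ‖μ‖ * z ^ m)
    (h2 : ∀ μ ∈ A, ∀ μ' ∈ A, R < ‖μ‖ → ‖μ‖ = ‖μ'‖ → μ = μ') :
    Thin fun t => ∑ μ ∈ A, (P μ).eval (t : ℂ) * μ ^ t := by
  classical
  set S : Finset (Σ _ : ℂ, ℕ) := A.sigma fun μ => (P μ).support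
  set c : (Σ _ : ℂ, ℕ) → ℂ := fun i => (P i.1).coeff i.2
  set g : (Σ _ : ℂ, ℕ) → ℝ × ℕ := fun i => (Real.log ‖i.1‖, i.2)
  set τ : (Σ _ : ℂ, ℕ) → ℕ → ℂ := fun i t => c i * t ^ i.2 * i.1 ^ t
  have e : (fun t : ℕ => ∑ μ ∈ A, (P μ).eval (t : ℂ) * μ ^ t) = fun t => ∑ i ∈ S, τ i t := by
    funext t
    rw [Finset.sum_sigma]
    exact Finset.sum_congr rfl fun μ _ => by rw [eval_eq_sum, Polynomial.sum, Finset.sum_mul]
  have hA : ∀ i ∈ S, i.1 ∈ A := fun i hi => (Finset.mem_sigma.1 hi).1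
  have p0 : ∀ i ∈ S, 0 < ‖i.1‖ := fun i hi => one_pos.trans_le (h0 _ (hA i hi))
  have mg : ∀ i ∈ S, ∀ t, mono (g i) t = ‖i.1‖ ^ t * t ^ i.2 := fun i hi t => by
    simp only [mono, g, Real.exp_log (p0 i hi)]
  have nτ : ∀ i ∈ S, ∀ t, ‖τ i t‖ = ‖c i‖ * mono (g i) t := fun i hi t => by
    simp only [τ, mg i hi, norm_mul, norm_pow, Complex.norm_natCast]
    ring
  rw [e]
  by_cases hc : ∃ i ∈ S, R < ‖i.1‖ ∧ toLex (0, 0) < toLex (g i)
  · obtain ⟨i, i1, i2, i3⟩ := hc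
    obtain ⟨j, j1, j2⟩ := S.exists_max_image (fun i => toLex (g i)) ⟨i, i1⟩
    have j3 : R < ‖j.1‖ := i2.trans_le ((Real.log_le_log_iff (p0 i i1) (p0 j j1)).1
      (Prod.Lex.monotone_fst _ _ (j2 i i1)))
    have t1 : Tendsto (mono (g j)) atTop atTop := by
      have := dom (i3.trans_le (j2 i i1))
      simp only [mono, Real.exp_zero, one_pow, pow_zero, mul_one, one_div] at this
      refine (tendsto_inv_nhdsGT_zero.comp (tendsto_nhdsWithin_iff.2 ⟨this, ?_⟩)).congr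
        fun t => inv_inv _
      filter_upwards [eventually_gt_atTop 0] with t ht
      exact inv_pos.2 (mono_pos _ ht)
    have t2 : Tendsto (fun t => ‖c j‖ - ∑ k ∈ S.erase j, ‖c k‖ * (mono (g k) t / mono (g j) t))
        atTop (𝓝 (‖c j‖ - ∑ k ∈ S.erase j, ‖c k‖ * 0)) := by
      refine tendsto_const_nhds.sub (tendsto_finsetSum _ fun k hk => (dom ?_).const_mul _)
      obtain ⟨k1, k2⟩ := Finset.mem_erase.1 hk
      refine lt_of_le_of_ne (j2 k k2) fun h => k1 ?_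
      obtain ⟨a, b⟩ := Prod.ext_iff.1 (toLex.injective h)
      exact Sigma.ext (h2 _ (hA j j1) _ (hA k k2) j3
        (Real.log_injOn_pos (p0 j j1) (p0 k k2) a.symm)).symm (heq_of_eq b)
    simp only [mul_zero, Finset.sum_const_zero, sub_zero] at t2
    refine thin_of_tendsto (tendsto_atTop_mono' _ ?_ (t2.pos_mul_atTop
      (norm_pos_iff.2 (mem_support_iff.1 (Finset.mem_sigma.1 j1).2)) t1))
    filter_upwards [eventually_gt_atTop 0] with t ht
    have m0 := mono_pos (g j) ht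
    rw [← Finset.add_sum_erase _ _ j1, sub_mul, Finset.sum_mul]
    have a1 := norm_le_add_norm_add (τ j t) (∑ k ∈ S.erase j, τ k t)
    have a2 : ‖∑ k ∈ S.erase j, τ k t‖ ≤
        ∑ k ∈ S.erase j, ‖c k‖ * (mono (g k) t / mono (g j) t) * mono (g j) t :=
      norm_sum_le_of_le _ fun k hk => by
        rw [nτ k (Finset.mem_of_mem_erase hk), mul_assoc, div_mul_cancel₀ _ m0.ne']
    rw [nτ j j1] at a1
    linarith
  · push Not at hc
    choose! m hm using h1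
    have := (thin_of_rel (S.filter fun i => ‖i.1‖ ≤ R) c g (fun i => m i.1) z hz).add
      (b := fun t => ∑ i ∈ S.filter fun i => ¬ ‖i.1‖ ≤ R, τ i t)
      (B := ∑ i ∈ S.filter fun i => ¬ ‖i.1‖ ≤ R, ‖c i‖) fun t => norm_sum_le_of_le _ fun i hi => by
        obtain ⟨i1, i2⟩ := Finset.mem_filter.1 hi
        have : g i = (0, 0) := toLex.injective (le_antisymm (hc i i1 (not_le.1 i2))
          (Prod.Lex.toLex_mono ⟨Real.log_nonneg (h0 _ (hA i i1)), Nat.zero_le _⟩))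
        rw [nτ i i1, this]
        simp [mono]
    convert this using 2 with t
    rw [← Finset.sum_filter_add_sum_filter_not S fun i => ‖i.1‖ ≤ R]
    congr 1
    refine Finset.sum_congr rfl fun i hi => ?_
    obtain ⟨i1, i2⟩ := Finset.mem_filter.1 hi
    have := congrArg (· ^ t) (hm _ (hA i i1) i2)
    simp only [mul_pow] at this
    simp only [τ]
    rw [mg i i1, this, ← zpow_natCast (z ^ m i.1), ← zpow_mul, ← zpow_natCast z, ← zpow_mul,
      mul_comm (t : ℤ)]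
    push_cast
    ring

theorem not_dense (s : ℕ → ℂ) (N : ℕ) (hN : 0 < N) (h : ∀ a, Thin fun t => s (a + N * t)) :
    ¬ DenseRange s := by
  choose e he using h
  obtain ⟨L, hL⟩ := ((eventually_all_finset (Finset.range N)).2 fun a ha =>
    he a ((Finset.range N).sup e) (Finset.le_sup ha) 1).exists
  set η : ℂ := L + L ^ (Finset.range N).sup e * Complex.I
  obtain ⟨t₀, ht₀⟩ := eventually_atTop.1 ((eventually_all_finset _).2 hL)
  intro hd
  have o : IsOpen (Metric.ball η 1 \ s '' Iio (N * t₀)) :=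
    Metric.isOpen_ball.sdiff ((finite_Iio _).image s).isClosed
  obtain ⟨k, k1, k2⟩ := hd.exists_mem_open o
    ((infinite_of_mem_nhds η (Metric.ball_mem_nhds η one_pos)).sdiff
      ((finite_Iio _).image s)).nonempty
  have k3 : N * t₀ ≤ k := not_lt.1 fun c => k2 ⟨k, c, rfl⟩
  have := ht₀ (k / N) ((Nat.le_div_iff_mul_le hN).2 (by rwa [mul_comm])) (k % N)
    (Finset.mem_range.2 (Nat.mod_lt _ hN))
  simp only [Nat.mod_add_div] at this
  exact absurd (mem_ball_iff_norm.1 k1) (not_lt.2 this)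

theorem main (Λ : Finset ℂ) (p : ℂ → ℂ[X]) (z : ℂ) (hz : ‖z‖ = 1) (R : ℝ) (hR : 0 ≤ R)
    (h0 : ∀ μ ∈ Λ, 1 ≤ ‖μ‖)
    (h1 : ∀ μ ∈ Λ, ‖μ‖ ≤ R → ∃ q : ℕ, 0 < q ∧ ∃ m : ℤ, (μ / ‖μ‖) ^ q = z ^ m)
    (h2 : ∀ μ ∈ Λ, ∀ μ' ∈ Λ, R < ‖μ‖ → ‖μ‖ = ‖μ'‖ → IsOfFinOrder (μ / μ'))
    (b : ℕ → ℂ) (B : ℝ) (hb : ∀ k, ‖b k‖ ≤ B) :
    ¬ DenseRange fun k : ℕ => ∑ μ ∈ Λ, (p μ).eval (k : ℂ) * μ ^ k + b k := by
  classical
  have n0 : ∀ μ ∈ Λ, μ ≠ 0 := fun μ h => norm_pos_iff.1 (one_pos.trans_le (h0 μ h))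
  have h3 : ∀ x : ℂ × ℂ, ∃ q : ℕ, 0 < q ∧ ∀ N, q ∣ N → x.1 ∈ Λ → x.2 ∈ Λ →
      (‖x.1‖ ≤ R → ∃ m : ℤ, (x.1 / ‖x.1‖) ^ N = z ^ m) ∧
      (R < ‖x.1‖ → ‖x.1‖ = ‖x.2‖ → x.1 ^ N = x.2 ^ N) := fun ⟨μ, μ'⟩ => by
    by_cases a : μ ∈ Λ ∧ μ' ∈ Λ
    · by_cases c : ‖μ‖ ≤ R
      · obtain ⟨q, q1, m, q2⟩ := h1 μ a.1 c
        refine ⟨q, q1, ?_⟩
        rintro _ ⟨r, rfl⟩ - -
        exact ⟨fun _ => ⟨m * r, by rw [pow_mul, q2, zpow_mul, zpow_natCast]⟩,
          fun h => absurd c (not_le.2 h)⟩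
      · by_cases d : ‖μ‖ = ‖μ'‖
        · obtain ⟨q, q1, q2⟩ := isOfFinOrder_iff_pow_eq_one.1 (h2 μ a.1 μ' a.2 (not_le.1 c) d)
          refine ⟨q, q1, ?_⟩
          rintro _ ⟨r, rfl⟩ - -
          refine ⟨fun h => absurd h c, fun _ _ => ?_⟩
          rw [div_pow, div_eq_one_iff_eq (pow_ne_zero _ (n0 _ a.2))] at q2
          rw [pow_mul, pow_mul, q2]
        · exact ⟨1, one_pos, fun _ _ _ _ => ⟨fun h => absurd h c, fun _ h => absurd h d⟩⟩
    · exact ⟨1, one_pos, fun _ _ a1 a2 => absurd ⟨a1, a2⟩ a⟩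
  choose q q1 q2 using h3
  set N := ∏ x ∈ Λ ×ˢ Λ, q x
  have hN : 0 < N := Finset.prod_pos fun x _ => q1 x
  have q3 := fun μ (h : μ ∈ Λ) μ' (h' : μ' ∈ Λ) => q2 (μ, μ') N
    (Finset.dvd_prod_of_mem _ (Finset.mem_product.2 ⟨h, h'⟩)) h h'
  refine not_dense _ N hN fun a => Thin.add ?_ fun t => hb _
  have := core (Λ.image (· ^ N)) (fun ν => ∑ μ ∈ Λ.filter (· ^ N = ν),
    C (μ ^ a) * (p μ).comp (C (a : ℂ) + C (N : ℂ) * X)) z hz (R ^ N) ?_ ?_ ?_
  · convert this using 2 with t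
    rw [← Finset.sum_fiberwise_of_maps_to (g := (· ^ N)) fun μ h => Finset.mem_image_of_mem _ h]
    refine Finset.sum_congr rfl fun ν _ => ?_
    rw [eval_finsetSum, Finset.sum_mul]
    refine Finset.sum_congr rfl fun μ hμ => ?_
    rw [← (Finset.mem_filter.1 hμ).2, pow_add, pow_mul]
    simp only [eval_mul, eval_C, eval_comp, eval_add, eval_X]
    push_cast
    ring
  · simp only [Finset.forall_mem_image, norm_pow]
    exact fun μ h => one_le_pow₀ (h0 μ h)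
  · simp only [Finset.forall_mem_image, norm_pow]
    intro μ h c
    obtain ⟨m, hm⟩ := (q3 μ h μ h).1 ((pow_le_pow_iff_left₀ (norm_nonneg _) hR hN.ne').1 c)
    refine ⟨m, ?_⟩
    have : (‖μ‖ : ℂ) ≠ 0 := by simpa using n0 μ h
    rw [← hm, div_pow]
    push_cast
    field_simp
  · simp only [Finset.forall_mem_image, norm_pow]
    intro μ h μ' h' c d
    exact (q3 μ h μ' h').2 (lt_of_pow_lt_pow_left₀ N (norm_nonneg _) c)
      ((pow_left_inj₀ (norm_nonneg _) (norm_nonneg _) hN.ne').1 d)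

variable {V : Type*} [AddCommGroup V] [Module ℂ V]

theorem jordan (T : Module.End ℂ V) (f : Module.Dual ℂ V) (y : V) (μ : ℂ) (hμ : μ ≠ 0) (n : ℕ)
    (h : ((T - μ • 1) ^ n) y = 0) :
    ∃ p : ℂ[X], ∀ k : ℕ, f ((T ^ k) y) = p.eval (k : ℂ) * μ ^ k := by
  set N := T - μ • 1
  refine ⟨∑ j ∈ Finset.range n, C (f ((N ^ j) y) / μ ^ j / j.factorial) * descPochhammer ℂ j,
    fun k => ?_⟩
  have e : T = N + μ • 1 := by simp [N]
  have z : ∀ j, n ≤ j → (N ^ j) y = 0 := fun j hj => by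
    obtain ⟨d, rfl⟩ := Nat.exists_eq_add_of_le' hj
    rw [pow_add, Module.End.mul_apply, h, map_zero]
  set a : ℕ → ℂ := fun j => f ((N ^ j) y) / μ ^ j * k.choose j * μ ^ k
  have e1 : f ((T ^ k) y) = ∑ j ∈ Finset.range (k + 1), a j := by
    rw [e, ((Commute.one_right N).smul_right μ).add_pow, LinearMap.sum_apply, map_sum]
    refine Finset.sum_congr rfl fun j hj => ?_
    obtain ⟨d, rfl⟩ := Nat.exists_eq_add_of_le (Nat.lt_succ_iff.1 (Finset.mem_range.1 hj))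
    simp only [a, _root_.smul_pow, one_pow, Module.End.mul_apply, Module.End.natCast_apply, map_nsmul,
      LinearMap.smul_apply, Module.End.one_apply, map_smul, Nat.add_sub_cancel_left, smul_eq_mul,
      nsmul_eq_mul, pow_add]
    field_simp
  rw [e1, Finset.sum_subset (Finset.range_mono (Nat.le_add_right (k + 1) n)) fun j _ hj => by
      simp only [a]
      rw [Nat.choose_eq_zero_of_lt (by simpa using hj)]; simp,
    ← Finset.sum_subset (Finset.range_mono (Nat.le_add_left n (k + 1))) fun j _ hj => by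
      simp only [a]
      rw [z j (by simpa using hj)]; simp,
    eval_finsetSum, Finset.sum_mul]
  refine Finset.sum_congr rfl fun j _ => ?_
  simp only [a, eval_mul, eval_C, Nat.cast_choose_eq_descPochhammer_div]
  ring

theorem small (T : Module.End ℂ V) (f : Module.Dual ℂ V) (y : V) (μ : ℂ) (n : ℕ)
    (h : ((T - μ • 1) ^ n) y = 0) (h1 : ‖μ‖ < 1 ∨ (‖μ‖ = 1 ∧
      LinearMap.ker ((T - μ • 1) ^ 2) = LinearMap.ker (T - μ • 1))) :
    ∃ B, ∀ k : ℕ, ‖f ((T ^ k) y)‖ ≤ B := by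
  rcases h1 with h1 | ⟨h1, h2⟩
  · have : Tendsto (fun k : ℕ => f ((T ^ k) y)) atTop (𝓝 0) := by
      by_cases h0 : μ = 0
      · refine tendsto_const_nhds.congr' ?_
        filter_upwards [eventually_ge_atTop n] with k hk
        obtain ⟨d, rfl⟩ := Nat.exists_eq_add_of_le' hk
        rw [h0, zero_smul, sub_zero] at h
        rw [pow_add, Module.End.mul_apply, h, map_zero, map_zero]
      · obtain ⟨p, hp⟩ := jordan T f y μ h0 n h
        simp only [hp, eval_eq_sum, Polynomial.sum, Finset.sum_mul, mul_assoc]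
        simpa using tendsto_finsetSum p.support fun d _ =>
          (summable_pow_mul_geometric_of_norm_lt_one d h1).tendsto_atTop_zero.const_mul (p.coeff d)
    obtain ⟨B, hB⟩ := (Metric.isBounded_range_of_tendsto _ this).exists_norm_le
    exact ⟨B, fun k => hB _ ⟨k, rfl⟩⟩
  · have e : (T - μ • 1) y = 0 := by
      induction n with
      | zero => rw [show y = 0 from h, map_zero]
      | succ n ih =>
        cases n with
        | zero => simpa using h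
        | succ n =>
          refine ih ?_
          have : ((T - μ • 1) ^ n) y ∈ LinearMap.ker ((T - μ • 1) ^ 2) := by
            rw [LinearMap.mem_ker, ← Module.End.mul_apply, ← pow_add, add_comm]
            exact h
          rw [h2] at this
          rw [pow_succ']
          exact this
    have e2 : T y = μ • y := sub_eq_zero.1 e
    refine ⟨‖f y‖, fun k => le_of_eq ?_⟩
    induction k with
    | zero => rfl
    | succ k ih => rw [pow_succ, Module.End.mul_apply, e2, map_smul, map_smul, norm_smul, h1,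
        one_mul, ih]

theorem eig (T : Module.End ℂ V) (y : V) (μ : ℂ) (n : ℕ) (h : ((T - μ • 1) ^ n) y = 0)
    (hy : y ≠ 0) : T.HasEigenvalue μ := by
  induction n generalizing y with
  | zero => exact absurd h hy
  | succ n ih =>
    by_cases c : (T - μ • 1) y = 0
    · exact Module.End.hasEigenvalue_of_hasEigenvector
        ⟨Module.End.mem_eigenspace_iff.2 (sub_eq_zero.1 c), hy⟩
    · exact ih _ (by rw [← Module.End.mul_apply, ← pow_succ]; exact h) c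

end Pool.Agent.H.MP_fe3f7a_an
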